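import Mathlib

namespace Pool.Agent.Results.MP_e13ffb_co.Counter

open Finset

/-- The real point of an integer point. -/
def emb {d : ℕ} (s : Fin d → ℤ) : Fin d → ℝ := fun i => (s i : ℝ)

/-- `S` is integrally convex: every `x ∈ conv S` lies in `conv (S ∩ N x)`. -/
def IntegrallyConvex {d : ℕ} (S : Finset (Fin d → ℤ)) : Prop :=
  ∀ x ∈ convexHull ℝ (emb '' (S : Set (Fin d → ℤ))),
    x ∈ convexHull ℝ (emb '' {y | y ∈ S ∧ ∀ i, |x i - (y i : ℝ)| < 1})

/-- The `k`-parallelogram condition (sums of `k'` points, `1 ≤ k' ≤ k`, repetitions allowed). -/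
def Parallelogram {d : ℕ} (k : ℕ) (A B : Finset (Fin d → ℤ)) : Prop :=
  ∀ k', 1 ≤ k' → k' ≤ k → ∀ a b : Fin k' → (Fin d → ℤ),
    (∀ j, a j ∈ A) → (∀ j, b j ∈ B) → ∑ j, a j ≠ ∑ j, b j

/-- `P` separates `A` and `B` in `L`: the two connected components `R⁺`, `R⁻` of `L \ P`
satisfy `R⁺ ∩ S ⊆ A` and `R⁻ ∩ S ⊆ B`, where `S = A ∪ B`. -/
def Separates {d : ℕ} (A B : Finset (Fin d → ℤ)) (P L : AffineSubspace ℝ (Fin d → ℝ)) : Prop :=
  ∃ p q : Fin d → ℝ,
    connectedComponentIn ((L : Set (Fin d → ℝ)) \ P) p ∪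
      connectedComponentIn ((L : Set (Fin d → ℝ)) \ P) q = (L : Set (Fin d → ℝ)) \ P ∧
    (∀ s ∈ A ∪ B, emb s ∈ connectedComponentIn ((L : Set (Fin d → ℝ)) \ P) p → s ∈ A) ∧
    (∀ s ∈ A ∪ B, emb s ∈ connectedComponentIn ((L : Set (Fin d → ℝ)) \ P) q → s ∈ B)

/-- Condition H. -/
def ConditionH {d : ℕ} (A B : Finset (Fin d → ℤ)) : Prop :=
  ∃ (k : ℕ) (H : ℕ → AffineSubspace ℝ (Fin d → ℝ)), k ≤ d ∧ H d = ⊤ ∧
    (∀ i, k ≤ i → i ≤ d →
      (H i : Set (Fin d → ℝ)).Nonempty ∧ Module.finrank ℝ (H i).direction = i) ∧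
    ((∀ s ∈ A ∪ B, emb s ∈ H k → s ∈ A) ∨ (∀ s ∈ A ∪ B, emb s ∈ H k → s ∈ B)) ∧
    ∀ i, k ≤ i → i + 1 ≤ d → H i ≤ H (i + 1) ∧ Separates A B (H i) (H (i + 1))

lemma ic {d : ℕ} (S : Finset (Fin d → ℤ)) (h : ∀ s ∈ S, ∀ i, s i = 0 ∨ s i = 1) :
    IntegrallyConvex S := by
  classical
  intro x hx
  obtain ⟨ι, _, w, z, hw, h1, hz, hxe⟩ := mem_convexHull_iff_exists_fintype.1 hx
  have hz' : ∀ t i, z t i = 0 ∨ z t i = 1 := by
    intro t i
    obtain ⟨s, hs, e⟩ := hz t
    rw [← e]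
    rcases h s hs i with h0 | h0 <;> simp [emb, h0]
  have hxi : ∀ i, x i = ∑ t, w t * z t i := by
    intro i; rw [← hxe]; simp [Finset.sum_apply]
  have hxi' : ∀ i, 1 - x i = ∑ t, w t * (1 - z t i) := by
    intro i; rw [hxi i]; simp only [mul_sub, mul_one, sum_sub_distrib, h1]
  have n0 : ∀ i t, 0 ≤ w t * z t i := fun i t =>
    mul_nonneg (hw t) (by rcases hz' t i with e | e <;> rw [e] <;> norm_num)
  have n1 : ∀ i t, 0 ≤ w t * (1 - z t i) := fun i t =>
    mul_nonneg (hw t) (by rcases hz' t i with e | e <;> rw [e] <;> norm_num)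
  have e : ∑ t ∈ univ.filter (fun t => w t ≠ 0), w t • z t = x := by
    rw [← hxe]
    apply Finset.sum_filter_of_ne
    intro t _ ht h0
    exact ht (by rw [h0, zero_smul])
  have key : ∑ t ∈ univ.filter (fun t => w t ≠ 0), w t • z t ∈
      convexHull ℝ (emb '' {y | y ∈ S ∧ ∀ i, |x i - (y i : ℝ)| < 1}) := by
    apply Convex.sum_mem (convex_convexHull ℝ _) (fun t _ => hw t)
    · rw [← h1]; exact Finset.sum_filter_ne_zero _
    · intro t ht
      have hp : 0 < w t := lt_of_le_of_ne (hw t) (Ne.symm (mem_filter.1 ht).2)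
      apply subset_convexHull
      obtain ⟨s, hs, es⟩ := hz t
      refine ⟨s, ⟨hs, fun i => ?_⟩, es⟩
      have a0 : w t * z t i ≤ x i := by
        rw [hxi i]; exact single_le_sum (fun t _ => n0 i t) (mem_univ t)
      have a1 : w t * (1 - z t i) ≤ 1 - x i := by
        rw [hxi' i]; exact single_le_sum (fun t _ => n1 i t) (mem_univ t)
      have ez : (s i : ℝ) = z t i := by rw [← es]; rfl
      rw [ez, abs_lt]
      rcases hz' t i with e | e <;> rw [e] at a0 a1 ⊢ <;> constructor <;> linarith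
  rwa [e] at key

lemma exphi {d : ℕ} (P L : AffineSubspace ℝ (Fin d → ℝ)) (hle : P ≤ L)
    (hP : (P : Set (Fin d → ℝ)).Nonempty)
    (hd : Module.finrank ℝ L.direction = Module.finrank ℝ P.direction + 1) :
    ∃ (f : (Fin d → ℝ) →ₗ[ℝ] ℝ) (c : ℝ), ∀ x, x ∈ P ↔ x ∈ L ∧ f x = c := by
  obtain ⟨o, ho⟩ := hP
  have hle' : P.direction ≤ L.direction := AffineSubspace.direction_le hle
  have hlt : P.direction < L.direction :=
    lt_of_le_of_ne hle' (fun e => by rw [e] at hd; omega)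
  obtain ⟨v, hvL, hvP⟩ := SetLike.exists_of_lt hlt
  obtain ⟨f, hfv, hfP⟩ := Submodule.exists_le_ker_of_notMem hvP
  have hk : L.direction ⊓ LinearMap.ker f = P.direction := by
    symm
    apply Submodule.eq_of_le_of_finrank_le (le_inf hle' hfP)
    have : L.direction ⊓ LinearMap.ker f < L.direction :=
      lt_of_le_of_ne inf_le_left (fun e => hfv (by
        have : v ∈ L.direction ⊓ LinearMap.ker f := by rw [e]; exact hvL
        exact this.2))
    have := Submodule.finrank_lt_finrank_of_lt this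
    omega
  refine ⟨f, f o, fun x => ?_⟩
  rw [← AffineSubspace.vsub_right_mem_direction_iff_mem ho,
    ← AffineSubspace.vsub_right_mem_direction_iff_mem (hle ho), ← hk]
  simp [sub_eq_zero]

lemma signs {d : ℕ} (A B : Finset (Fin d → ℤ)) (hAB : Disjoint A B)
    (P L : AffineSubspace ℝ (Fin d → ℝ)) (f : (Fin d → ℝ) →ₗ[ℝ] ℝ) (c : ℝ)
    (hf : ∀ x, x ∈ P ↔ x ∈ L ∧ f x = c) (hs : Separates A B P L)
    (hL : ∀ s ∈ A ∪ B, emb s ∈ L) :
    ((∀ a ∈ A, c ≤ f (emb a)) ∧ (∀ b ∈ B, f (emb b) ≤ c)) ∨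
    ((∀ a ∈ A, f (emb a) ≤ c) ∧ (∀ b ∈ B, c ≤ f (emb b))) := by
  obtain ⟨p, q, hu, hp, hq⟩ := hs
  set F : Set (Fin d → ℝ) := (L : Set (Fin d → ℝ)) \ P with hF
  have hc : Continuous f := LinearMap.continuous_of_finiteDimensional f
  have h1 : ∀ r u v, u ∈ connectedComponentIn F r → v ∈ connectedComponentIn F r →
      f u < c → c < f v → False := by
    intro r u v hu hv h1 h2
    obtain ⟨z, hz, ez⟩ := (isPreconnected_connectedComponentIn (x := r) (F := F)).intermediate_value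
      hu hv hc.continuousOn ⟨h1.le, h2.le⟩
    have := connectedComponentIn_subset F r hz
    exact this.2 ((hf z).2 ⟨this.1, ez⟩)
  have h2 : ∀ r u v, u ∈ connectedComponentIn F r → v ∈ L →
      ((f u < c ∧ f v < c) ∨ (c < f u ∧ c < f v)) → v ∈ connectedComponentIn F r := by
    intro r u v hu hv h
    have huL : u ∈ L := (connectedComponentIn_subset F r hu).1
    rw [connectedComponentIn_eq hu]
    rcases h with h | h
    · have cv : Convex ℝ ((L : Set (Fin d → ℝ)) ∩ {x | f x < c}) :=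
        L.convex.inter (convex_halfSpace_lt f.isLinear c)
      exact cv.isPreconnected.subset_connectedComponentIn (x := u) (F := F) ⟨huL, h.1⟩
        (fun x hx => ⟨hx.1, fun hP => absurd ((hf x).1 hP).2 (ne_of_lt hx.2)⟩) ⟨hv, h.2⟩
    · have cv : Convex ℝ ((L : Set (Fin d → ℝ)) ∩ {x | c < f x}) :=
        L.convex.inter (convex_halfSpace_gt f.isLinear c)
      exact cv.isPreconnected.subset_connectedComponentIn (x := u) (F := F) ⟨huL, h.1⟩
        (fun x hx => ⟨hx.1, fun hP => absurd ((hf x).1 hP).2 (ne_of_gt hx.2)⟩) ⟨hv, h.2⟩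
  have hA : ∀ a ∈ A, f (emb a) ≠ c → emb a ∈ connectedComponentIn F p := by
    intro a ha hne
    have : emb a ∈ F := ⟨hL a (mem_union_left _ ha), fun hP => hne ((hf _).1 hP).2⟩
    rw [← hu] at this
    rcases this with h | h
    · exact h
    · exact absurd (hq a (mem_union_left _ ha) h) (Finset.disjoint_left.1 hAB ha)
  have hB : ∀ b ∈ B, f (emb b) ≠ c → emb b ∈ connectedComponentIn F q := by
    intro b hb hne
    have : emb b ∈ F := ⟨hL b (mem_union_right _ hb), fun hP => hne ((hf _).1 hP).2⟩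
    rw [← hu] at this
    rcases this with h | h
    · exact absurd (hp b (mem_union_right _ hb) h) (Finset.disjoint_right.1 hAB hb)
    · exact h
  have h3 : ∀ a ∈ A, ∀ b ∈ B,
      ((f (emb a) < c ∧ f (emb b) < c) ∨ (c < f (emb a) ∧ c < f (emb b))) → False := by
    intro a ha b hb h
    have hne : f (emb a) ≠ c := by
      rcases h with h | h
      · exact ne_of_lt h.1
      · exact ne_of_gt h.1
    have := h2 p _ _ (hA a ha hne) (hL b (mem_union_right _ hb)) h
    exact absurd (hp b (mem_union_right _ hb) this) (Finset.disjoint_right.1 hAB hb)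
  by_cases c1 : ∃ a ∈ A, c < f (emb a)
  · obtain ⟨a, ha, h⟩ := c1
    left
    refine ⟨fun a' ha' => not_lt.1 fun h' => ?_, fun b hb => not_lt.1 fun h' => ?_⟩
    · exact h1 p _ _ (hA a' ha' (ne_of_lt h')) (hA a ha (ne_of_gt h)) h' h
    · exact h3 a ha b hb (Or.inr ⟨h, h'⟩)
  · have c1' : ∀ a ∈ A, f (emb a) ≤ c := fun a ha => not_lt.1 fun h => c1 ⟨a, ha, h⟩
    by_cases c2 : ∃ a ∈ A, f (emb a) < c
    · obtain ⟨a, ha, h⟩ := c2
      right
      exact ⟨c1', fun b hb => not_lt.1 fun h' => h3 a ha b hb (Or.inl ⟨h, h'⟩)⟩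
    · have c2' : ∀ a ∈ A, c ≤ f (emb a) := fun a ha => not_lt.1 fun h => c2 ⟨a, ha, h⟩
      by_cases c3 : ∃ b ∈ B, c < f (emb b)
      · obtain ⟨b, hb, h⟩ := c3
        right
        exact ⟨c1', fun b' hb' => not_lt.1 fun h' =>
          h1 q _ _ (hB b' hb' (ne_of_lt h')) (hB b hb (ne_of_gt h)) h' h⟩
      · left
        exact ⟨c2', fun b hb => not_lt.1 fun h => c3 ⟨b, hb, h⟩⟩

theorem result : ∃ A B : Finset (Fin 4 → ℤ), A.Nonempty ∧ B.Nonempty ∧ Disjoint A B ∧
    IntegrallyConvex (A ∪ B) ∧ Parallelogram 4 A B ∧ ¬ ConditionH A B := by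
  refine ⟨{![0,0,0,1], ![0,0,1,0], ![1,1,0,0]}, {![0,0,0,0], ![0,1,1,1], ![1,0,1,1]},
    by simp, by simp, by decide, ic _ (by decide), ?_, ?_⟩
  · intro k h1 h4 a b ha hb h
    have e : ∀ i, ∑ j, a j i = ∑ j, b j i := fun i => by
      simpa [Finset.sum_apply] using congrFun h i
    have e2 : ∑ j, (3 * a j 0 + 3 * a j 1 + a j 2 + a j 3) =
        ∑ j, (3 * b j 0 + 3 * b j 1 + b j 2 + b j 3) := by
      simp only [sum_add_distrib, ← mul_sum, e]
    have ha' : ∀ j, ((3 * a j 0 + 3 * a j 1 + a j 2 + a j 3 : ℤ) : ZMod 5) = 1 := by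
      intro j
      have := ha j
      simp only [mem_insert, mem_singleton] at this
      rcases this with e | e | e <;> rw [e] <;> decide
    have hb' : ∀ j, ((3 * b j 0 + 3 * b j 1 + b j 2 + b j 3 : ℤ) : ZMod 5) = 0 := by
      intro j
      have := hb j
      simp only [mem_insert, mem_singleton] at this
      rcases this with e | e | e <;> rw [e] <;> decide
    have e3 := congrArg (fun z : ℤ => (z : ZMod 5)) e2
    simp only [Int.cast_sum, ha', hb', sum_const, card_univ, Fintype.card_fin] at e3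
    interval_cases k <;> revert e3 <;> decide
  · rintro ⟨k, H, hk, htop, hdim, hfin, hsep⟩
    have all : ∀ m i, i + m = 4 → k ≤ i →
        ∀ s ∈ ({![0,0,0,1], ![0,0,1,0], ![1,1,0,0]} ∪ {![0,0,0,0], ![0,1,1,1], ![1,0,1,1]} :
          Finset (Fin 4 → ℤ)), emb s ∈ H i := by
      intro m
      induction m with
      | zero =>
        intro i hi _ s _
        have : i = 4 := by omega
        rw [this, htop]; trivial
      | succ m ih =>
        intro i hi hki
        have hL := ih (i + 1) (by omega) (by omega)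
        obtain ⟨hle, hs⟩ := hsep i hki (by omega)
        obtain ⟨f, c, hf⟩ := exphi (H i) (H (i + 1)) hle (hdim i hki (by omega)).1 (by
          rw [(hdim i hki (by omega)).2, (hdim (i + 1) (by omega) (by omega)).2])
        have sg := signs _ _ (by decide) _ _ f c hf hs hL
        have hv : (2:ℝ) • emb ![0,0,0,1] + (2:ℝ) • emb ![0,0,1,0] + emb ![1,1,0,0] =
            (3:ℝ) • emb ![0,0,0,0] + emb ![0,1,1,1] + emb ![1,0,1,1] := by
          ext i; fin_cases i <;> simp [emb] <;> norm_num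
        have hv' := congrArg f hv
        simp only [map_add, map_smul, smul_eq_mul] at hv'
        simp only [mem_insert, mem_singleton, forall_eq_or_imp, forall_eq] at sg
        intro s hs
        refine (hf _).2 ⟨hL s hs, ?_⟩
        simp only [mem_union, mem_insert, mem_singleton] at hs
        rcases sg with ⟨⟨a1, a2, a3⟩, b1, b2, b3⟩ | ⟨⟨a1, a2, a3⟩, b1, b2, b3⟩ <;>
          rcases hs with (e | e | e) | (e | e | e) <;> rw [e] <;> linarith
    have hall := all (4 - k) k (by omega) le_rfl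
    rcases hfin with h | h
    · exact absurd (h ![0,0,0,0] (by decide) (hall _ (by decide))) (by decide)
    · exact absurd (h ![0,0,0,1] (by decide) (hall _ (by decide))) (by decide)

end Pool.Agent.Results.MP_e13ffb_co.Counter
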